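import Pool.Agent.H32.LrC

set_option autoImplicit false

open Pool.Agent.H32.Mon Pool.Agent.H32.Lr in
theorem Pool.Agent.Results.MP_a5b0d0_al.CUndec.result :
    ∃ (A : Type) (_ : Finite A) (_ : Primcodable A) (R : Set (List A × List A)),
      R.Finite ∧ LenRed R ∧ Confluent R ∧
        ¬ ComputablePred fun x : List A × List A => CConj (cls R x.1) (cls R x.2) :=
  Pool.Agent.H32.Lr.main
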